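import Pool.Agent.L5helper79.TW.Inf

open UpperHalfPlane hiding I
open scoped MatrixGroups
open CongruenceSubgroup DirichletCharacter

namespace Pool.Agent.Results.MP_d17ed7_nt.SplitImaginaryTwists

open L5helper79.TW

lemma gamma0_one : (Gamma0 1 : Subgroup (GL (Fin 2) ℝ)) = 𝒮ℒ := by
  have h : Gamma0 1 = ⊤ := by
    ext γ
    simp only [Gamma0_mem, Subgroup.mem_top, iff_true]
    exact Subsingleton.elim _ _
  rw [h]
  ext g
  simp

lemma exists_delta : ∃ f : CuspForm (Gamma0 1 : Subgroup (GL (Fin 2) ℝ)) (2 * ((6 : ℕ) : ℤ)),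
    ∀ τ, f τ = ModularForm.discriminant τ := by
  rw [gamma0_one]
  exact ⟨CuspForm.discriminant, fun τ => rfl⟩

lemma al_one {m : ℕ} (f : CuspForm (Gamma0 1 : Subgroup (GL (Fin 2) ℝ)) (2 * (m : ℤ))) :
    IsAtkinLehnerEigen 1 m f := by
  intro Q hQ
  have hQ1 : Q = 1 := Nat.dvd_one.mp hQ
  subst hQ1
  refine ⟨1, Or.inl rfl, fun x y z w hdet τ τ' hτ => ?_⟩
  simp only [Nat.cast_one, one_mul, Nat.div_self one_pos] at hdet hτ ⊢
  let γ : SL(2, ℤ) := ⟨!![x, y; z, w], by rw [Matrix.det_fin_two_of]; linarith⟩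
  have hγ : γ ∈ Gamma0 1 := by
    rw [Gamma0_mem]; exact Subsingleton.elim _ _
  have h := SlashInvariantForm.slash_action_eqn_SL'' (k := 2 * (m : ℤ)) f hγ τ
  have hden : denom γ τ = (z : ℂ) * τ + w := by
    simp [denom, γ]
  have hsm : γ • τ = τ' := by
    apply UpperHalfPlane.ext
    rw [UpperHalfPlane.specialLinearGroup_apply]
    have hne : (z : ℂ) * τ + w ≠ 0 := by rw [← hden]; exact denom_ne_zero _ _
    simp only [γ]
    rw [div_eq_iff]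
    · simpa using hτ.symm
    · simpa using hne
  rw [← hsm, h, hden]
  rw [one_pow, one_mul]
  norm_cast

/-- see the claim file -/
theorem result :
    (∀ N : ℕ, Squarefree N → ∀ m : ℕ, 0 < m →
      ∀ f : CuspForm (Gamma0 N : Subgroup (GL (Fin 2) ℝ)) (2 * (m : ℤ)),
      IsAtkinLehnerEigen N m f →
      (∀ (D : ℕ) [NeZero D] (ψ : DirichletCharacter ℂ D), IsRealPrimitive ψ →
        ∃! L, IsTwistedL m f ψ L) ∧
      (∀ (d : ℕ) [NeZero d] (χ : DirichletCharacter ℂ d), IsRealPrimitive χ → χ.Odd →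
        (∀ p : ℕ, p.Prime → p ∣ N → χ (p : ZMod d) = 1) →
        ∀ (D : ℕ) [NeZero D] (ψ : DirichletCharacter ℂ D), IsRealPrimitive ψ →
        ∀ L L' : ℂ → ℂ, IsTwistedL m f ψ L → IsTwistedL m f (primitive_mul χ ψ) L' →
          L (1 / 2) * L' (1 / 2) = 0)) ∧
    (∀ N : ℕ, N ≠ 0 → {q : ℕ | q.Prime ∧ ∃ χ : DirichletCharacter ℂ q, IsRealPrimitive χ ∧ χ.Odd ∧
      ∀ p : ℕ, p.Prime → p ∣ N → χ (p : ZMod q) = 1}.Infinite) ∧
    (∀ m : ℕ, ∀ f : CuspForm (Gamma0 1 : Subgroup (GL (Fin 2) ℝ)) (2 * (m : ℤ)),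
      IsAtkinLehnerEigen 1 m f) ∧
    (∃ f : CuspForm (Gamma0 1 : Subgroup (GL (Fin 2) ℝ)) (2 * ((6 : ℕ) : ℤ)),
      ∀ τ, f τ = ModularForm.discriminant τ) := by
  refine ⟨fun N hN m hm f hf => ⟨fun D _ ψ hψ => ?_, fun d _ χ hχ hodd hp D _ ψ hψ L L' hL hL' => ?_⟩,
    fun N hN => infinite_split N hN, fun m f => al_one f, exists_delta⟩
  · have : NeZero N := ⟨hN.ne_zero⟩
    obtain ⟨e, he⟩ := exists_signs hf
    obtain ⟨L, hL, -⟩ := exists_twisted hN hm f (strictWidthInfty_Gamma0 N) he ψ hψ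
    exact ⟨L, hL, fun L' hL' => hL'.unique hL⟩
  · have : NeZero N := ⟨hN.ne_zero⟩
    exact product_zero hN hm f (strictWidthInfty_Gamma0 N) hf χ hχ.2 hodd hp ψ hψ hL hL'

end Pool.Agent.Results.MP_d17ed7_nt.SplitImaginaryTwists
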